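import Pool.Agent.H577R3.RM.Stmts

set_option autoImplicit false

/-! Task MIN: the rows are independent iff some maximal minor is nonzero. -/

namespace Pool.Agent.H577R3.RM

theorem min_general {K : Type} [Field K] {L X : Type} [Fintype L] [DecidableEq L] [Fintype X]
    (M : Matrix L X K) : LinearIndependent K M.row ↔
      ∃ a : L → X, Matrix.det (Matrix.of fun l l' => M l (a l')) ≠ 0 := by
  classical
  constructor
  · intro h
    have h1 := h.rank_matrix
    obtain ⟨κ, a, ha, hsp, hli⟩ := exists_linearIndependent' K M.col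
    have : Finite κ := Finite.of_injective a ha
    have : Fintype κ := Fintype.ofFinite κ
    rw [Matrix.rank_eq_finrank_span_cols, ← hsp, finrank_span_eq_card hli] at h1
    have e : L ≃ κ := Fintype.equivOfCardEq h1.symm
    refine ⟨a ∘ e, ?_⟩
    have h2 : LinearIndependent K (Matrix.of fun l l' => M l ((a ∘ e) l')).col :=
      hli.comp e e.injective
    rw [Matrix.linearIndependent_cols_iff_isUnit, Matrix.isUnit_iff_isUnit_det] at h2
    exact h2.ne_zero
  · rintro ⟨a, ha⟩
    have h1 := Matrix.linearIndependent_rows_of_det_ne_zero ha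
    exact LinearIndependent.of_comp (LinearMap.funLeft K K a) h1

theorem taskMIN : TaskMIN := by
  intro K _ n m j R I
  have h := min_general (K := K) (L := {l : Fin m // l.1 < j}) (X := {x // x ∈ I})
    (Matrix.of fun l x => R l.1 x.1)
  constructor
  · intro h1
    obtain ⟨a, ha⟩ := h.1 h1
    exact ⟨fun l => (a l).1, fun l => (a l).2, ha⟩
  · rintro ⟨a, ha, hd⟩
    exact h.2 ⟨fun l => ⟨a l, ha l⟩, hd⟩

end Pool.Agent.H577R3.RM
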